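import Pool.Agent.Helper37.ETC.Defs

/-!
# Blocks O1, O2, O3, O5 for the Elementary Type Conjecture (MP_600e55_nt)

Valuation rings of `K` and of the fixed field of a profinite group acting on `K`. Proof: helper44.
-/

set_option autoImplicit false

namespace Pool.Helper37.ETC

section Galois

variable {p : ℕ} [Fact p.Prime] {G K : Type*} [Group G] [TopologicalSpace G]
  [IsTopologicalGroup G] [CompactSpace G] [T2Space G] [TotallyDisconnectedSpace G] [Field K]
  [MulSemiringAction G K] {ζ : K}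

omit [IsTopologicalGroup G] [CompactSpace G] [T2Space G] [TotallyDisconnectedSpace G]
  [TopologicalSpace G] in
theorem mem_res_iff (A : ValuationSubring K) (x : Fxs G K) : x ∈ res G A ↔ (x : K) ∈ A :=
  Iff.rfl

omit [IsTopologicalGroup G] [CompactSpace G] [T2Space G] [TotallyDisconnectedSpace G]
  [TopologicalSpace G] in
/-- O1 -/
theorem exists_ext (B : ValuationSubring (Fxs G K)) :
    ∃ A : ValuationSubring K, res G A = B := by
  let f : B →+* K := (algebraMap (Fxs G K) K).comp B.subtype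
  obtain ⟨A, hA, hloc⟩ := IsLocalRing.exists_factor_valuationRing f
  refine ⟨A, ?_⟩
  ext x
  rw [mem_res_iff]
  refine ⟨fun hx => ?_, fun hx => hA ⟨x, hx⟩⟩
  by_contra hcon
  have hx0 : x ≠ 0 := by rintro rfl; exact hcon B.zero_mem
  have hinv : x⁻¹ ∈ B := (B.mem_or_inv_mem x).resolve_left hcon
  have hu : IsUnit ((f.codRestrict A.toSubring hA) ⟨x⁻¹, hinv⟩) := by
    rw [isUnit_iff_exists_inv]
    refine ⟨⟨(x : K), hx⟩, ?_⟩
    apply Subtype.ext
    have : ((x⁻¹ : Fxs G K) : K) * (x : K) = 1 := by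
      rw [← MulMemClass.coe_mul, inv_mul_cancel₀ hx0]; rfl
    exact this
  have hu2 : IsUnit (⟨x⁻¹, hinv⟩ : B) := hloc.map_nonunit _ hu
  obtain ⟨y, hy⟩ := isUnit_iff_exists_inv.mp hu2
  have h1 : x⁻¹ * (y : Fxs G K) = 1 := congrArg Subtype.val hy
  have h2 : (y : Fxs G K) = x := by
    have := congrArg (fun t => x * t) h1
    simp only [mul_one, mul_inv_cancel_left₀ hx0] at this
    exact this
  apply hcon
  rw [← h2]; exact y.2

omit [T2Space G] in
/-- `K` is integral over the fixed field. -/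
theorem isIntegral_fxs (hc : ∀ x : K, IsOpen {σ : G | σ • x = x}) :
    Algebra.IsIntegral (Fxs G K) K := by
  let _ : TopologicalSpace K := ⊥
  have : DiscreteTopology K := ⟨rfl⟩
  have : ContinuousSMul G K := by
    refine ⟨?_⟩
    rw [continuous_discrete_rng]
    intro y
    rw [isOpen_iff_forall_mem_open]
    rintro ⟨σ, x⟩ hσ
    have h1 : IsOpen {τ : G | σ⁻¹ * τ ∈ {ρ : G | ρ • x = x}} :=
      (hc x).preimage (continuous_const.mul continuous_id)
    refine ⟨{τ : G | σ⁻¹ * τ ∈ {ρ : G | ρ • x = x}} ×ˢ {x}, ?_, h1.prod (isOpen_discrete _), ?_⟩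
    · rintro ⟨τ, z⟩ ⟨hτ, hz⟩
      have hz' : z = x := hz
      subst hz'
      have h2 : (σ⁻¹ * τ) • z = z := hτ
      rw [mul_smul, inv_smul_eq_iff] at h2
      have h3 : σ • z = y := hσ
      show τ • z = y
      rw [h2, h3]
    · refine ⟨?_, rfl⟩
      show (σ⁻¹ * σ) • x = x
      rw [inv_mul_cancel, one_smul]
  have : Algebra.IsInvariant (Fxs G K) K G := ⟨fun x hx => ⟨⟨x, hx⟩, rfl⟩⟩
  exact Algebra.IsInvariant.isIntegral_of_profinite (G := G)

omit [T2Space G] in
/-- O2 -/
theorem res_eq_top (hc : ∀ x : K, IsOpen {σ : G | σ • x = x}) (A : ValuationSubring K)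
    (h : res G A = ⊤) : A = ⊤ := by
  have := isIntegral_fxs hc
  rw [eq_top_iff]
  intro x _
  obtain ⟨P, hP, hx⟩ := Algebra.IsIntegral.isIntegral (R := Fxs G K) x
  have hA : ∀ y : Fxs G K, (y : K) ∈ A := fun y => by
    rw [← mem_res_iff, h]; trivial
  let g : Fxs G K →+* A := (algebraMap (Fxs G K) K).codRestrict A.toSubring hA
  have h1 : IsIntegral A x := by
    refine ⟨P.map g, hP.map g, ?_⟩
    rw [Polynomial.eval₂_map]
    exact hx
  obtain ⟨y, hy⟩ := IsIntegrallyClosed.isIntegral_iff.1 h1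
  rw [← hy]
  exact y.2

omit [T2Space G] in
/-- O3 (the fixed field has elements in every ideal) -/
theorem exists_small_fixed (hc : ∀ x : K, IsOpen {σ : G | σ • x = x}) (A : ValuationSubring K)
    {c : K} (h : c ≠ 0) : ∃ d ∈ (Fx G : Set K), d ≠ 0 ∧ ∃ t ∈ A, d = c * t := by
  have := isIntegral_fxs hc
  obtain ⟨P, hP, hx⟩ := Algebra.IsIntegral.isIntegral (R := Fxs G K) c⁻¹
  -- a common denominator
  have hden : ∀ s : Finset ℕ, ∃ d : Fxs G K, d ≠ 0 ∧ (d : K) ∈ A ∧
      ∀ i ∈ s, (d : K) * (P.coeff i : K) ∈ A := by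
    classical
    intro s
    induction s using Finset.induction_on with
    | empty => exact ⟨1, one_ne_zero, A.one_mem, fun i hi => absurd hi (Finset.notMem_empty i)⟩
    | @insert i s _ ih =>
      obtain ⟨d, hd0, hdA, hd⟩ := ih
      by_cases hi : (P.coeff i : K) ∈ A
      · refine ⟨d, hd0, hdA, fun j hj => ?_⟩
        rcases Finset.mem_insert.1 hj with rfl | hj
        · exact A.mul_mem _ _ hdA hi
        · exact hd j hj
      · have hi' : (P.coeff i : K)⁻¹ ∈ A := (A.mem_or_inv_mem _).resolve_left hi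
        have hi0 : P.coeff i ≠ 0 := by
          intro h0
          apply hi
          rw [h0]
          exact A.zero_mem
        have hi0' : (P.coeff i : K) ≠ 0 := by
          intro h0
          exact hi0 (Subtype.ext h0)
        refine ⟨d * (P.coeff i)⁻¹, mul_ne_zero hd0 (inv_ne_zero hi0), ?_, fun j hj => ?_⟩
        · exact A.mul_mem _ _ hdA hi'
        · rcases Finset.mem_insert.1 hj with rfl | hj
          · have : ((d * (P.coeff j)⁻¹ : Fxs G K) : K) * (P.coeff j : K) = d := by
              push_cast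
              field_simp
            rw [this]
            exact hdA
          · have : ((d * (P.coeff i)⁻¹ : Fxs G K) : K) * (P.coeff j : K)
                = (d : K) * (P.coeff j : K) * (P.coeff i : K)⁻¹ := by
              push_cast
              ring
            rw [this]
            exact A.mul_mem _ _ (hd j hj) hi'
  obtain ⟨d, hd0, hdA, hd⟩ := hden (Finset.range (P.natDegree + 1))
  have hd0'' : (d : K) ≠ 0 := fun h0 => hd0 (Subtype.ext h0)
  have hint : (d : K) * c⁻¹ ∈ A := by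
    rcases A.mem_or_inv_mem ((d : K) * c⁻¹) with h1 | h1
    · exact h1
    set t : K := (d : K) * c⁻¹ with ht
    have ht0 : t ≠ 0 := mul_ne_zero hd0'' (inv_ne_zero h)
    rw [Polynomial.eval₂_eq_sum_range] at hx
    obtain ⟨m, hm⟩ : ∃ m, P.natDegree = m + 1 := by
      cases hn : P.natDegree with
      | zero =>
        exfalso
        rw [hn] at hx
        have h2 : P.coeff 0 = 1 := by rw [← hn]; exact hP
        simp [h2] at hx
      | succ m => exact ⟨m, rfl⟩
    rw [Finset.sum_range_succ, hP.coeff_natDegree, map_one, one_mul, hm] at hx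
    have h3 : t = -∑ i ∈ Finset.range (m + 1),
        (d : K) * (P.coeff i : K) * (d : K) ^ (m - i) * t⁻¹ ^ (m - i) := by
      have h4 : c⁻¹ ^ (m + 1) = -∑ i ∈ Finset.range (m + 1),
          algebraMap (Fxs G K) K (P.coeff i) * c⁻¹ ^ i := by
        linear_combination hx
      have h5 : t = (d : K) ^ (m + 1) * t⁻¹ ^ m * c⁻¹ ^ (m + 1) := by
        have : t = t ^ (m + 1) * t⁻¹ ^ m := by
          rw [pow_succ, mul_comm (t ^ m) t, mul_assoc, ← mul_pow, mul_inv_cancel₀ ht0, one_pow,
            mul_one]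
        conv_lhs => rw [this, ht, mul_pow]
        rw [ht]
        ring
      rw [h4, mul_neg, Finset.mul_sum] at h5
      conv_lhs => rw [h5]
      congr 1
      refine Finset.sum_congr rfl fun i hi => ?_
      have hi' : i ≤ m := by
        have := Finset.mem_range.1 hi
        omega
      obtain ⟨k, rfl⟩ := Nat.exists_eq_add_of_le hi'
      have h6 : c⁻¹ ^ i = t ^ i * ((d : K)⁻¹) ^ i := by
        rw [ht, mul_pow, mul_right_comm, ← mul_pow, mul_inv_cancel₀ hd0'', one_pow, one_mul]
      have h7 : algebraMap (Fxs G K) K (P.coeff i) = (P.coeff i : K) := rfl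
      rw [h6, h7, Nat.add_sub_cancel_left, pow_add, pow_add, pow_succ]
      have h8 : t⁻¹ ^ i * t ^ i = 1 := by
        rw [← mul_pow, inv_mul_cancel₀ ht0, one_pow]
      have h9 : (d : K) ^ i * ((d : K)⁻¹) ^ i = 1 := by
        rw [← mul_pow, mul_inv_cancel₀ hd0'', one_pow]
      linear_combination ((d : K) ^ i * (d : K) ^ k * d * t⁻¹ ^ k * (P.coeff i : K) *
        ((d : K)⁻¹) ^ i) * h8 + ((d : K) ^ k * d * t⁻¹ ^ k * (P.coeff i : K)) * h9
    rw [h3]
    refine A.neg_mem _ (sum_mem fun i hi => ?_)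
    refine A.mul_mem _ _ (A.mul_mem _ _ (hd i ?_) (pow_mem hdA _)) (pow_mem h1 _)
    have := Finset.mem_range.1 hi
    rw [Finset.mem_range]
    omega
  have hd0' : (d : K) ≠ 0 := fun h0 => hd0 (Subtype.ext h0)
  refine ⟨d, d.2, hd0', (d : K) * c⁻¹, ?_, ?_⟩
  · exact hint
  · field_simp

omit [IsTopologicalGroup G] [CompactSpace G] [T2Space G] [TotallyDisconnectedSpace G]
  [TopologicalSpace G] in
/-- O5 -/
theorem exists_coarse (A : ValuationSubring K) (B : ValuationSubring (Fxs G K))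
    (h : res G A ≤ B) : ∃ A' : ValuationSubring K, A ≤ A' ∧ res G A' = B := by
  have hadd : ∀ a ∈ A, ∀ b ∈ B, ∀ a' ∈ A, ∀ b' ∈ B, ∃ a'' ∈ A, ∃ b'' ∈ B,
      a * (b : K) + a' * (b' : K) = a'' * (b'' : K) := by
    intro a ha b hb a' ha' b' hb'
    by_cases hb0 : b = 0
    · exact ⟨a', ha', b', hb', by rw [hb0]; simp⟩
    by_cases hb0' : b' = 0
    · exact ⟨a, ha, b, hb, by rw [hb0']; simp⟩
    have h1 : (b : K) ≠ 0 := fun h0 => hb0 (Subtype.ext h0)
    have h2 : (b' : K) ≠ 0 := fun h0 => hb0' (Subtype.ext h0)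
    rcases A.mem_or_inv_mem ((b' : K) / b) with h3 | h3
    · refine ⟨a + a' * ((b' : K) / b), A.add_mem _ _ ha (A.mul_mem _ _ ha' h3), b, hb, ?_⟩
      field_simp
    · rw [inv_div] at h3
      refine ⟨a * ((b : K) / b') + a', A.add_mem _ _ (A.mul_mem _ _ ha h3) ha', b', hb', ?_⟩
      field_simp
  let A' : ValuationSubring K :=
    { carrier := {y | ∃ a ∈ A, ∃ b ∈ B, y = a * ((b : Fxs G K) : K)}
      mul_mem' := by
        rintro _ _ ⟨a, ha, b, hb, rfl⟩ ⟨a', ha', b', hb', rfl⟩
        exact ⟨a * a', A.mul_mem _ _ ha ha', b * b', B.mul_mem _ _ hb hb', by push_cast; ring⟩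
      one_mem' := ⟨1, A.one_mem, 1, B.one_mem, by simp⟩
      add_mem' := by
        rintro _ _ ⟨a, ha, b, hb, rfl⟩ ⟨a', ha', b', hb', rfl⟩
        exact hadd a ha b hb a' ha' b' hb'
      zero_mem' := ⟨0, A.zero_mem, 1, B.one_mem, by simp⟩
      neg_mem' := by
        rintro _ ⟨a, ha, b, hb, rfl⟩
        exact ⟨-a, A.neg_mem _ ha, b, hb, by ring⟩
      mem_or_inv_mem' := by
        intro x
        rcases A.mem_or_inv_mem x with h1 | h1
        · exact Or.inl ⟨x, h1, 1, B.one_mem, by simp⟩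
        · exact Or.inr ⟨x⁻¹, h1, 1, B.one_mem, by simp⟩ }
  have hA' : ∀ y, y ∈ A' ↔ ∃ a ∈ A, ∃ b ∈ B, y = a * ((b : Fxs G K) : K) := fun y => Iff.rfl
  refine ⟨A', fun x hx => (hA' x).2 ⟨x, hx, 1, B.one_mem, by simp⟩, ?_⟩
  ext x
  rw [mem_res_iff, hA']
  constructor
  · rintro ⟨a, ha, b, hb, hx⟩
    by_cases hb0 : b = 0
    · have : x = 0 := Subtype.ext (by rw [hx, hb0]; simp)
      rw [this]
      exact B.zero_mem
    · have h1 : (b : K) ≠ 0 := fun h0 => hb0 (Subtype.ext h0)
      have h2 : ((x / b : Fxs G K) : K) = a := by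
        push_cast
        rw [hx]
        field_simp
      have h3 : x / b ∈ B := h (by rw [mem_res_iff, h2]; exact ha)
      have h4 : x = x / b * b := by field_simp
      rw [h4]
      exact B.mul_mem _ _ h3 hb
  · intro hx
    exact ⟨1, A.one_mem, x, hx, by simp⟩

end Galois

end Pool.Helper37.ETC
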